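import Pool.Agent.N510.CT.IForm
import Pool.Agent.N510.CT.Dom
import Pool.Agent.N510.LT.UForm

set_option autoImplicit false

/-!
# Quadratic forms over integral group rings at the norm `3 / √2`

`G` is any group (torsion allowed). An `ε`-quadratic form over `ℤG`, `ε = 1`, or `ε = -1` and `G`
without elements of order two, whose symmetrisation has operator norm at most `3 / √2` (the bound
included) is an orthogonal sum of forms induced from virtually cyclic subgroups. For every larger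
bound, every group and every sign, each form is, after adding hyperbolic planes, isometric to one of
such a norm with coefficients `0`, `1`, `-1`.
-/

namespace Pool.Agent.Results.MP_9d1ffa_al.CriticalNormForms

open TH57.Thr TH6.LF TH6.PF Matrix Pool.Agent.N510

/-- Up to a diagonal change of basis by group elements the form `ψ` (a matrix modulo the matrices
`χ - ε χ*`) is an orthogonal sum of forms over the group rings of virtually cyclic subgroups `C a`,
which are nonsingular if `ψ` is. -/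
def FromVC {G : Type} [Group G] (ε : ℤ) {n : ℕ} (ψ : Matrix (Fin n) (Fin n) (MonoidAlgebra ℤ G)) :
    Prop :=
  ∃ (ρ : Fin n → Fin n) (u : Fin n → G) (C : Fin n → Subgroup G)
    (θ : ∀ a, Matrix {i // ρ i = a} {i // ρ i = a} (MonoidAlgebra ℤ (C a)))
    (χ : Matrix (Fin n) (Fin n) (MonoidAlgebra ℤ G)),
    (∀ a, IsVC (C a)) ∧
    Dm u * ψ * adj (Dm u) = indSum ρ C θ + (χ - ε • adj χ) ∧
    (IsUnit (ψ + ε • adj ψ) → ∀ a, IsUnit (θ a + ε • adj (θ a)))

/-- all coefficients are `0`, `1` or `-1` -/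
def Small {G ι κ : Type} (A : Matrix ι κ (MonoidAlgebra ℤ G)) : Prop :=
  ∀ i j g, (A i j).coeff g = 0 ∨ (A i j).coeff g = 1 ∨ (A i j).coeff g = -1

theorem sadj_eq {G ι κ : Type} [Group G] (A : Matrix ι κ (MonoidAlgebra ℤ G)) :
    sadj (1 : G →* ℤˣ) A = adj A := by
  ext i j g
  rw [sadj_apply, coeff_sbar, coeff_adj, MonoidHom.one_apply, Units.val_one, one_smul]
  rfl

/-- `NormLE A c`: right multiplication by `A` on `ℓ²(G)^n` has norm at most `|c|`. -/
theorem result :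
    (∀ c : ℝ, 0 < c → c ^ 2 ≤ 9 / 2 → ∀ (G : Type) [Group G] (ε : ℤ), (ε = 1 ∨ ε = -1) →
      (ε = 1 ∨ ∀ g : G, g * g = 1 → g = 1) →
      ∀ (n : ℕ) (ψ : Matrix (Fin n) (Fin n) (MonoidAlgebra ℤ G)),
        NormLE (ψ + ε • adj ψ) c → FromVC ε ψ) ∧
    ∀ c : ℝ, 0 < c → 9 / 2 < c ^ 2 → ∀ (G : Type) [Group G] (n : ℕ)
      (ψ : Matrix (Fin n) (Fin n) (MonoidAlgebra ℤ G)),
      ∃ (m : ℕ) (P : (Matrix (Fin n ⊕ (Fin m ⊕ Fin m)) (Fin n ⊕ (Fin m ⊕ Fin m))
        (MonoidAlgebra ℤ G))ˣ) (φ : Matrix (Fin n ⊕ (Fin m ⊕ Fin m)) (Fin n ⊕ (Fin m ⊕ Fin m))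
        (MonoidAlgebra ℤ G)),
        P ∈ commutator (Matrix (Fin n ⊕ (Fin m ⊕ Fin m)) (Fin n ⊕ (Fin m ⊕ Fin m))
          (MonoidAlgebra ℤ G))ˣ ∧
        P.val * fromBlocks ψ 0 0 (fromBlocks 0 1 0 0) * adj P.val = φ ∧
        Small φ ∧ ∀ ε : ℤ, (ε = 1 ∨ ε = -1) →
          Small (φ + ε • adj φ) ∧ NormLE (φ + ε • adj φ) c := by
  refine ⟨fun c hc0 hc G _ ε hε h2 n ψ hψ => CT.forms_below2 ε hε h2 c hc0 hc ψ hψ,
    fun c hc0 hc G _ n ψ => ?_⟩
  obtain ⟨m, P, h1, h2, h3, h4⟩ := LT.sform_reduction_fin (1 : G →* ℤˣ) CT.gens_int ψ c hc0 hc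
  rw [sadj_eq] at h2 h3 h4
  have hφ : Small (P.val * addHyp (Fin m) ψ * adj P.val) := by
    intro i j g
    by_cases h0 : ((P.val * addHyp (Fin m) ψ * adj P.val) i j).coeff g = 0
    · exact Or.inl h0
    · exact Or.inr (h3 i j g h0)
  refine ⟨m, P, _, h1, rfl, hφ, fun ε hε => ?_⟩
  change Small (P.val * addHyp (Fin m) ψ * adj P.val + ε • adj (P.val * addHyp (Fin m) ψ *
    adj P.val)) ∧ NormLE (P.val * addHyp (Fin m) ψ * adj P.val + ε • adj (P.val *
    addHyp (Fin m) ψ * adj P.val)) c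
  set φ := P.val * addHyp (Fin m) ψ * adj P.val with hφd
  have hco : ∀ i j g, ((φ + ε • adj φ) i j).coeff g
      = (φ i j).coeff g + ε * (φ j i).coeff g⁻¹ := by
    intro i j g
    rw [Matrix.add_apply, coeff_add', Matrix.smul_apply, coeff_zsmul', coeff_adj]
  have hsm : Small (φ + ε • adj φ) := by
    intro i j g
    rw [hco]
    rcases h2 i j with h | h
    · rw [h, MonoidAlgebra.coeff_zero, Finsupp.coe_zero, Pi.zero_apply, zero_add]
      rcases hφ j i g⁻¹ with h5 | h5 | h5 <;> rcases hε with h6 | h6 <;> rw [h5, h6] <;> norm_num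
    · rw [h, MonoidAlgebra.coeff_zero, Finsupp.coe_zero, Pi.zero_apply, mul_zero, add_zero]
      exact hφ i j g
  refine ⟨hsm, CT.normLE_of_dom _ (symPat φ) (fun i j g => ?_) c h4⟩
  have hi : ∀ r : ℤ, (r = 0 ∨ r = 1 ∨ r = -1) → |r| = ind r := by
    intro r hr
    by_cases h0 : r = 0
    · rw [h0, ind_zero, abs_zero]
    · rw [ind_of_ne h0]
      rcases hr with h | h | h
      · exact absurd h h0
      · rw [h, abs_one]
      · rw [h, abs_neg, abs_one]
  rw [hco, coeff_symPat, ← hi _ (hφ i j g), ← hi _ (hφ j i g⁻¹)]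
  refine (abs_add_le _ _).trans ?_
  rw [abs_mul]
  have h6 : |ε| = 1 := by rcases hε with h | h <;> rw [h] <;> norm_num
  rw [h6, one_mul]

end Pool.Agent.Results.MP_9d1ffa_al.CriticalNormForms
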