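import Pool.Agent.R719.DD.Sharp

set_option autoImplicit false

/-! Nonsingular hermitian forms over the integral group ring of an arbitrary group which are
diagonally dominant are simply isometric to the standard form, invertible matrices with a diagonally
dominant Gram matrix have no Whitehead torsion, and the constant of dominance is sharp.

The proofs are those of the files `Pool/Agent/R719/DD` of the starting library (helper719), whose
results for arbitrary groups were not used in a theorem so far. -/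

namespace Pool.Agent.Results.MP_9d1ffa_al.DominantHermitianForms

open Matrix

section defs

variable {Γ : Type} [Group Γ]

/-- the adjoint (conjugate transpose) of a matrix over `ℤΓ`, for the involution `g ↦ g⁻¹` -/
noncomputable def adjoint {κ μ : Type} (A : Matrix κ μ (MonoidAlgebra ℤ Γ)) :
    Matrix μ κ (MonoidAlgebra ℤ Γ) :=
  Matrix.of fun j i => MonoidAlgebra.mapDomain (fun g => g⁻¹) (A i j)

/-- the sum of the absolute values of the coefficients -/
def norm1 (x : MonoidAlgebra ℤ Γ) : ℕ := ∑ g ∈ x.coeff.support, (x.coeff g).natAbs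

/-- Diagonal dominance by rows with the factor `c`: in each row, the sum of the absolute values of
all coefficients of all entries, except the coefficient of `1` in the diagonal entry, is at most `c`
times this coefficient. -/
def Dominant {κ : Type} [Fintype κ] (c : ℝ) (S : Matrix κ κ (MonoidAlgebra ℤ Γ)) : Prop :=
  ∀ i, (∑ j, (norm1 (S i j) : ℝ)) - |((S i i).coeff 1 : ℝ)| ≤ c * ((S i i).coeff 1 : ℝ)

/-- the square matrix `x` over `ℤΓ`, stabilised by an identity block, is `± g` on one diagonal entry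
times a product of commutators of invertible matrices: `x` is zero in `Wh(Γ)` -/
def ZeroInWh {κ : Type} [Fintype κ] [DecidableEq κ]
    (x : Matrix κ κ (MonoidAlgebra ℤ Γ)) : Prop :=
  ∃ (m : ℕ) (g : Γ) (ε : ℤˣ)
    (C : (Matrix (κ ⊕ Fin (m + 1)) (κ ⊕ Fin (m + 1)) (MonoidAlgebra ℤ Γ))ˣ),
    C ∈ commutator (Matrix (κ ⊕ Fin (m + 1)) (κ ⊕ Fin (m + 1)) (MonoidAlgebra ℤ Γ))ˣ ∧
    Matrix.fromBlocks x 0 0 (1 : Matrix (Fin (m + 1)) (Fin (m + 1)) (MonoidAlgebra ℤ Γ)) =
      Matrix.diagonal (fun i : κ ⊕ Fin (m + 1) =>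
          if i = Sum.inr (0 : Fin (m + 1)) then
            (MonoidAlgebra.single g ((ε : ℤ)) : MonoidAlgebra ℤ Γ) else 1) *
        (↑C : Matrix (κ ⊕ Fin (m + 1)) (κ ⊕ Fin (m + 1)) (MonoidAlgebra ℤ Γ))

end defs

section aux

open TH57.Thr TH6.LF TH6.CX Pool.Agent.Y75.Th Pool.Agent.Y35.KC.TTm Pool.Agent.R719.DD

variable {Γ : Type} [Group Γ] {κ : Type} [Fintype κ] [DecidableEq κ]

theorem zero_of_TT {A : (Matrix κ κ (MonoidAlgebra ℤ Γ))ˣ} (h : TT (TU Γ) A) : ZeroInWh A.val :=
  TT_explicit A h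

theorem TT_of_zero {A : (Matrix κ κ (MonoidAlgebra ℤ Γ))ˣ} (h : ZeroInWh A.val) :
    TT (TU Γ) A := by
  obtain ⟨m, g, ε, C, hC, h1⟩ := h
  refine ⟨Fin (m + 1), inferInstance, inferInstance, ?_⟩
  let u : (MonoidAlgebra ℤ Γ)ˣ :=
    { val := MonoidAlgebra.single g (ε : ℤ)
      inv := MonoidAlgebra.single g⁻¹ ((ε⁻¹ : ℤˣ) : ℤ)
      val_inv := by
        rw [MonoidAlgebra.single_mul_single, mul_inv_cancel, Units.mul_inv]; rfl
      inv_val := by
        rw [MonoidAlgebra.single_mul_single, inv_mul_cancel, Units.inv_mul]; rfl }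
  have hu : u ∈ TU Γ := ⟨g, ε, rfl⟩
  have h2 : Units.map (stm (Fin (m + 1))) A
      = Units.map (dgm (Sum.inr (0 : Fin (m + 1)))) u * C := by
    apply Units.ext
    rw [Units.val_mul]
    change fromBlocks A.val 0 0 1 = dgm (Sum.inr (0 : Fin (m + 1))) (u : MonoidAlgebra ℤ Γ) * C.val
    rw [h1, dgm_apply]
    congr 2
    funext i
    by_cases h : i = Sum.inr (0 : Fin (m + 1))
    · subst h; simp [u]
    · rw [if_neg h, Function.update_of_ne h]; rfl
  rw [h2]
  exact mul_mem (dgm_mem_HH _ _ u hu) (commutator_le_HH _ hC)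

theorem ddom_of_dominant {S : Matrix κ κ (MonoidAlgebra ℤ Γ)} (h : Dominant 1 S) : DDom S := by
  intro i
  have h2 := h i
  have e1 := Finset.single_le_sum (f := fun j => (norm1 (S i j) : ℝ))
    (fun j _ => Nat.cast_nonneg _) (Finset.mem_univ i)
  have e2 := coeff_le_l1 (S i i) 1
  have e3 : |((S i i).coeff 1 : ℝ)| ≤ (norm1 (S i i) : ℝ) := by
    have : (l1 (S i i) : ℝ) = (norm1 (S i i) : ℝ) := rfl
    rw [← this]
    exact_mod_cast e2
  have h4 : (0 : ℝ) ≤ ((S i i).coeff 1 : ℝ) := by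
    rw [one_mul] at h2
    have : |((S i i).coeff 1 : ℝ)| ≤ ∑ j, (norm1 (S i j) : ℝ) := e3.trans e1
    linarith
  rw [abs_of_nonneg h4] at h2
  have h5 : (∑ j, (l1 (S i j) : ℝ)) = ∑ j, (norm1 (S i j) : ℝ) := rfl
  have h6 : (∑ j, (l1 (S i j) : ℝ)) ≤ 2 * ((S i i).coeff 1 : ℝ) := by rw [h5]; linarith
  exact_mod_cast h6

end aux

open TH57.Thr TH6.LF TH6.CX Pool.Agent.Y75.Th Pool.Agent.Y35.KC.TTm Pool.Agent.R719.DD in
/-- Let `Γ` be any group (torsion is allowed). (1) Each nonsingular hermitian form over `ℤΓ` whose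
matrix `S` is diagonally dominant (with the factor `1`) is simply isometric to the standard form:
`S = U U*` with `U` invertible and zero in `Wh(Γ)`; moreover the sum of the absolute values of the
coefficients of each column of `U` is at most two. (2) An invertible matrix `A` over `ℤΓ` is zero in
`Wh(Γ)` if `A A*` or `A* A` is diagonally dominant. The factor `1` is sharp: let `c > 1`. (3) For every
invertible hermitian `S` there is an invertible `P`, zero in `Wh(Γ)`, such that `P diag(S, 1) P*` is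
diagonally dominant with the factor `c`. (4) For every invertible `A` there is such a `P` for which
the Gram matrix `B B*` of `B = P diag(A, 1)` is diagonally dominant with the factor `c`. (5) Hence
`Wh(Γ)` is zero exactly if all `A` with such Gram matrices are zero in it. -/
theorem result (Γ : Type) [Group Γ] :
    (∀ (κ : Type) [Fintype κ] [DecidableEq κ] (S : (Matrix κ κ (MonoidAlgebra ℤ Γ))ˣ),
      adjoint S.val = S.val → Dominant 1 S.val →
        ∃ U : (Matrix κ κ (MonoidAlgebra ℤ Γ))ˣ, S.val = U.val * adjoint U.val ∧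
          ZeroInWh U.val ∧ ∀ j, ∑ i, norm1 (U.val i j) ≤ 2) ∧
    (∀ (κ : Type) [Fintype κ] [DecidableEq κ] (A : (Matrix κ κ (MonoidAlgebra ℤ Γ))ˣ),
      Dominant 1 (A.val * adjoint A.val) ∨ Dominant 1 (adjoint A.val * A.val) →
        ZeroInWh A.val) ∧
    ∀ c : ℝ, 1 < c →
      (∀ (κ : Type) [Fintype κ] [DecidableEq κ] (S : (Matrix κ κ (MonoidAlgebra ℤ Γ))ˣ),
        adjoint S.val = S.val → ∃ (N : ℕ)
          (P : (Matrix (κ ⊕ κ × Fin N) (κ ⊕ κ × Fin N) (MonoidAlgebra ℤ Γ))ˣ),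
          ZeroInWh P.val ∧ Dominant c (P.val * fromBlocks S.val 0 0 1 * adjoint P.val)) ∧
      (∀ (κ : Type) [Fintype κ] [DecidableEq κ] (A : (Matrix κ κ (MonoidAlgebra ℤ Γ))ˣ),
        ∃ (N : ℕ) (P : (Matrix (κ ⊕ κ × Fin N) (κ ⊕ κ × Fin N) (MonoidAlgebra ℤ Γ))ˣ),
          ZeroInWh P.val ∧
          Dominant c ((P.val * fromBlocks A.val 0 0 1) *
            adjoint (P.val * fromBlocks A.val 0 0 1))) ∧
      ((∀ (κ : Type) [Fintype κ] [DecidableEq κ] (A : (Matrix κ κ (MonoidAlgebra ℤ Γ))ˣ),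
          ZeroInWh A.val) ↔
        ∀ (κ : Type) [Fintype κ] [DecidableEq κ] (A : (Matrix κ κ (MonoidAlgebra ℤ Γ))ˣ),
          Dominant c (A.val * adjoint A.val) → ZeroInWh A.val) := by
  classical
  have keyA : ∀ c : ℝ, 1 < c → ∀ (κ : Type) [Fintype κ] [DecidableEq κ]
      (A : (Matrix κ κ (MonoidAlgebra ℤ Γ))ˣ), ∃ N : ℕ,
      Dominant c (((pm Γ κ N).val * fromBlocks A.val 0 0 1) *
            adjoint ((pm Γ κ N).val * fromBlocks A.val 0 0 1)) := by
    intro c hc κ _ _ A
    obtain ⟨N₁, h1⟩ := dom_stab c hc (A.val * adj A.val)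
    refine ⟨N₁, ?_⟩
    have h3 := h1 N₁ le_rfl
    rw [← pm_gram] at h3
    exact h3
  refine ⟨fun κ _ _ S hS hD => ?_, fun κ _ _ A hD => ?_, fun c hc => ⟨?_, ?_, ?_⟩⟩
  · obtain ⟨U, hU, h2⟩ := exists_unit_fact S hS (ddom_of_dominant hD)
    exact ⟨U, hU.symm, zero_of_TT (TT_two_mat U (Or.inl h2)), h2⟩
  · refine zero_of_TT (TT_gram A ?_)
    rcases hD with hD | hD
    · exact Or.inl (ddom_of_dominant hD)
    · exact Or.inr (ddom_of_dominant hD)
  · intro κ _ _ S _
    obtain ⟨N₁, h1⟩ := dom_stab c hc S.val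
    refine ⟨N₁, pm Γ κ N₁, zero_of_TT (TT_pm N₁), ?_⟩
    have h3 := h1 N₁ le_rfl
    rw [← pm_mul] at h3
    exact h3
  · intro κ _ _ A
    obtain ⟨N, h⟩ := keyA c hc κ A
    exact ⟨N, pm Γ κ N, zero_of_TT (TT_pm N), h⟩
  · refine ⟨fun h κ _ _ A _ => h κ A, fun h κ _ _ A => ?_⟩
    obtain ⟨N, h3⟩ := keyA c hc κ A
    have h4 := TT_of_zero (h _ (pm Γ κ N * Units.map (stm (κ × Fin N)) A) h3)
    have h5 : Units.map (stm (κ × Fin N)) A
        = (pm Γ κ N)⁻¹ * (pm Γ κ N * Units.map (stm (κ × Fin N)) A) := by group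
    have h6 : TT (TU Γ) (Units.map (stm (κ × Fin N)) A) := by
      rw [h5]
      exact TT_mul _ _ _ (TT_inv _ _ (TT_pm N)) h4
    exact zero_of_TT (TT_unst _ _ h6)

end Pool.Agent.Results.MP_9d1ffa_al.DominantHermitianForms
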