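import Pool.Agent.N24.FL.Main

/-!
# Groups of linear automorphisms modulo the finitary ones

Let `C` be a class of groups with the closure properties of the class of groups that satisfy the
Farrell-Jones conjecture, and let `D` be a division ring such that all the groups `GL_n(D)` are in
`C`. If `G` acts linearly on a vector space `V` over `D` of any dimension, and `N` is a normal subgroup
which acts faithfully and by automorphisms which differ from the identity by a map of finite rank, and
if `G / N` is in `C`, then `G` is in `C`.
-/

set_option autoImplicit false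

namespace Pool.Agent.Results.MP_9d1ffa_al.FinitaryLinearKernels

open Pool.Agent.Y110.FJ Pool.Agent.N24.FL

theorem result {C : ∀ (G : Type) [Group G], Prop} (hC : ClosedE C)
    {D V G : Type} [DivisionRing D] [AddCommGroup V] [Module D V] [Group G]
    (hD : ∀ n : ℕ, C ((Fin n → D) ≃ₗ[D] (Fin n → D)))
    (ρ : G →* (V ≃ₗ[D] V)) (N : Subgroup G) [N.Normal] (hQ : C (G ⧸ N))
    (hinj : ∀ x ∈ N, ρ x = 1 → x = 1)
    (hfin : ∀ x ∈ N, FiniteDimensional D (LinearMap.range ((ρ x).toLinearMap - LinearMap.id))) :
    C G :=
  main C hC hD ρ N hQ hinj hfin

end Pool.Agent.Results.MP_9d1ffa_al.FinitaryLinearKernels
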