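import Pool.Agent.N77.PA.Main

/-!
# The Farrell–Jones conjecture for the automorphism group of the affine plane

`C` is any class of groups with the closure properties `AcylClass C`: `C` is closed under subgroups,
overgroups of finite index and directed unions, it contains the solvable groups, and it contains
every countable group that acts on a tree without inversions, with vertex stabilizers in `C`, such
that for some `n` only the identity fixes two vertices of distance at least `n`. All this is known
for the class of the groups that satisfy the K- and L-theoretic Farrell–Jones conjecture with
coefficients and finite wreath products (the last property is a theorem of Knopf).

Let `K` be a field of characteristic zero. If `GL₃` of the algebraic closure of `K` is in `C` then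
the group of the automorphisms of the `K`-algebra `K[x, y]` is in `C`. For `K` algebraic over `ℚ`
the hypothesis is a theorem of Rüping (`S`-arithmetic groups and directed unions).

Outline of the proof. By directed unions it suffices to consider the automorphisms of `O[x, y]` for
a finitely generated subring `O` of `K`. The automorphisms which are trivial to second order at the
origin over two closed points of `Spec O` of different residue characteristics form a subgroup `H`
of finite index, which is torsion-free by Krull's intersection theorem. By the theorem of Jung and
van der Kulk over the algebraic closure `k` of `K`, the group `H` acts on a tree whose vertices are
the cosets of the affine group and of the triangular group in `Aut k[x, y]`. That the graph is a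
tree follows from a height function given by the degrees. An automorphism which fixes two vertices
of distance at least 7 has finite order: after conjugation it is `(αx + γ, δy + ε)` and commutes up
to affine maps with `(x + P(y), y)` and with `(x, y + Q(x))`, which forces `δ ^ m = α` and
`α ^ n = δ` with `m, n ≥ 2`, and `ε = 0` if `δ = 1`, and `γ = 0` if `α = 1`. So the action of `H` is
acylindrical. The vertex stabilizers are conjugate to groups of affine automorphisms, which embed in
`GL₃`, or of triangular automorphisms, which are solvable.
-/

set_option autoImplicit false

namespace Pool.Agent.Results.MP_9d1ffa_al.PlaneAutomorphisms

open Pool.Agent.N77.PA (AcylClass)

theorem result (C : ∀ (G : Type) [Group G], Prop) (hC : AcylClass C)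
    (K : Type) [Field K] [CharZero K]
    (hGL : C (Matrix.GeneralLinearGroup (Fin 3) (AlgebraicClosure K))) :
    C (MvPolynomial (Fin 2) K ≃ₐ[K] MvPolynomial (Fin 2) K) :=
  Pool.Agent.N77.PA.main hC K hGL

end Pool.Agent.Results.MP_9d1ffa_al.PlaneAutomorphisms
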